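import Pool.Agent.ArborealIndex.Tower

open Polynomial IntermediateField

namespace Pool.Agent.ArborealIndex

theorem tower_step {L : Type*} [Field L] (S S' : Set L) (c ε : L)
    (h : ∀ y ∈ S, ∃ a ∈ S', ∃ b ∈ S', ((a - c) * (b - c)) ^ 2 = ε * (y - c)) (s : Multiset L) :
    (∀ y ∈ s, y ∈ S) → ∃ s' : Multiset L, (∀ z ∈ s', z ∈ S') ∧
      (s'.map (fun z => z - c)).prod ^ 2 = ε ^ s.card * (s.map (fun z => z - c)).prod ∧
      s'.card = 2 * s.card := by
  induction s using Multiset.induction_on with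
  | empty => intro _; exact ⟨0, by simp, by simp, by simp⟩
  | cons y s ih =>
    intro hs
    obtain ⟨s', h1, h2, h3⟩ := ih (fun z hz => hs z (Multiset.mem_cons_of_mem hz))
    obtain ⟨a, ha, b, hb, hab⟩ := h y (hs y (Multiset.mem_cons_self y s))
    refine ⟨a ::ₘ b ::ₘ s', ?_, ?_, ?_⟩
    · intro z hz
      rw [Multiset.mem_cons, Multiset.mem_cons] at hz
      rcases hz with rfl | rfl | hz
      · exact ha
      · exact hb
      · exact h1 z hz
    · simp only [Multiset.map_cons, Multiset.prod_cons, Multiset.card_cons]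
      have e : ((a - c) * ((b - c) * (s'.map (fun z => z - c)).prod)) ^ 2 =
          ((a - c) * (b - c)) ^ 2 * (s'.map (fun z => z - c)).prod ^ 2 := by ring
      rw [e, hab, h2]
      ring
    · simp only [Multiset.card_cons, h3]; ring

/-- The polynomial `(x-2)^2 + 1`, the conjugate of `x^2 - 1` by the translation by `2`. -/
noncomputable def fBas (K : Type*) [Field K] : K[X] := (X - C 2) ^ 2 + 1

theorem fBas_monic (K : Type*) [Field K] : (fBas K).Monic := by
  have h : fBas K = (X ^ 2 + C 1 : K[X]).comp (X - C 2) := by simp [fBas]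
  rw [h]
  apply (monic_X_pow_add_C (1 : K) (by norm_num : 2 ≠ 0)).comp (monic_X_sub_C 2)
  rw [natDegree_X_sub_C]; exact one_ne_zero

theorem fBas_natDegree (K : Type*) [Field K] : (fBas K).natDegree = 2 := by
  have h : fBas K = (X - C 2) ^ 2 + C 1 := by simp [fBas]
  rw [h, natDegree_add_C, natDegree_pow, natDegree_X_sub_C]

theorem fBas_eval₂ {K L : Type*} [Field K] [Field L] (φ : K →+* L) (x : L) :
    (fBas K).eval₂ φ x = (x - 2) ^ 2 + 1 := by
  rw [fBas, eval₂_add, eval₂_pow, eval₂_sub, eval₂_X, eval₂_C, eval₂_one, map_ofNat]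

theorem fBas_tower {K L : Type*} [Field K] [Field L] [Algebra (RatFunc K) L]
    (φ : K →+* L) (hφ : φ = (algebraMap (RatFunc K) L).comp (algebraMap K (RatFunc K))) (k n : ℕ)
    (hn : 2 * k + 3 ≤ n)
    (hsplit : ((genericPoly (fBas K) n).map (algebraMap (RatFunc K) L)).Splits) :
    ∃ s : Multiset L, (∀ y ∈ s, (fun x => (fBas K).eval₂ φ x)^[2 * k + 3] y =
        algebraMap (RatFunc K) L RatFunc.X) ∧
      (s.map (fun z => z - 2)).prod ^ (2 ^ (k + 2)) = algebraMap (RatFunc K) L (RatFunc.X - 1) ∧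
      s.card = 2 ^ (k + 1) := by
  have hstep : ∀ m, m + 2 ≤ n → ∀ y ∈ {y : L | (fun x => (fBas K).eval₂ φ x)^[m] y =
      algebraMap (RatFunc K) L RatFunc.X},
      ∃ a ∈ {y : L | (fun x => (fBas K).eval₂ φ x)^[m + 2] y = algebraMap (RatFunc K) L RatFunc.X},
      ∃ b ∈ {y : L | (fun x => (fBas K).eval₂ φ x)^[m + 2] y = algebraMap (RatFunc K) L RatFunc.X},
      ((a - 2) * (b - 2)) ^ 2 = (-1) * (y - 2) := by
    intro m hm y hy
    simp only [Set.mem_ofPred_eq] at hy ⊢
    have hd : (fBas K).natDegree ≠ 0 := by rw [fBas_natDegree]; norm_num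
    obtain ⟨x, hx1, hx2⟩ := exists_preimage (fBas K) (fBas_monic K) hd (m := m) (n := n)
      (by omega) hsplit φ hφ y hy
    have hx1' : (fBas K).eval₂ φ (4 - x) = y := by
      rw [fBas_eval₂] at hx1 ⊢
      rw [← hx1]; ring
    have hx2' : (fun x => (fBas K).eval₂ φ x)^[m + 1] (4 - x) =
        algebraMap (RatFunc K) L RatFunc.X := by
      rw [Function.iterate_succ_apply, hx1', hy]
    obtain ⟨a, ha1, ha2⟩ := exists_preimage (fBas K) (fBas_monic K) hd (m := m + 1) (n := n)
      (by omega) hsplit φ hφ x hx2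
    obtain ⟨b, hb1, hb2⟩ := exists_preimage (fBas K) (fBas_monic K) hd (m := m + 1) (n := n)
      (by omega) hsplit φ hφ (4 - x) hx2'
    refine ⟨a, ha2, b, hb2, ?_⟩
    rw [fBas_eval₂] at hx1 ha1 hb1
    have e1 : (a - 2) ^ 2 = x - 1 := by linear_combination ha1
    have e2 : (b - 2) ^ 2 = 3 - x := by linear_combination hb1
    rw [mul_pow, e1, e2, ← hx1]
    ring
  induction k with
  | zero =>
    have hd : (fBas K).natDegree ≠ 0 := by rw [fBas_natDegree]; norm_num
    obtain ⟨x, hx1, hx2⟩ := exists_preimage (fBas K) (fBas_monic K) hd (m := 0) (n := n)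
      (by omega) hsplit φ hφ (algebraMap (RatFunc K) L RatFunc.X) rfl
    obtain ⟨s', h1, h2, h3⟩ := tower_step _ _ _ _ (hstep 1 (by omega)) {x} (by
      intro y hy
      rw [Multiset.mem_singleton] at hy
      subst hy
      exact hx2)
    refine ⟨s', h1, ?_, by simpa using h3⟩
    simp only [Multiset.card_singleton, Multiset.map_singleton, Multiset.prod_singleton,
      pow_one] at h2
    have e : (s'.map (fun z => z - 2)).prod ^ (2 ^ (0 + 2)) =
        ((s'.map (fun z => z - 2)).prod ^ 2) ^ 2 := by ring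
    rw [fBas_eval₂] at hx1
    rw [e, h2, map_sub, map_one, ← hx1]
    ring
  | succ k ih =>
    obtain ⟨s, h1, h2, h3⟩ := ih (by omega)
    obtain ⟨s', h1', h2', h3'⟩ := tower_step _ _ _ _ (hstep (2 * k + 3) (by omega)) s h1
    refine ⟨s', ?_, ?_, ?_⟩
    · have : 2 * (k + 1) + 3 = 2 * k + 3 + 2 := by ring
      rw [this]
      exact h1'
    · have e : (s'.map (fun z => z - 2)).prod ^ (2 ^ (k + 1 + 2)) =
        ((s'.map (fun z => z - 2)).prod ^ 2) ^ (2 ^ (k + 2)) := by
        rw [← pow_mul]; congr 1; ring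
      rw [e, h2', h3, Even.neg_one_pow (by rw [pow_succ]; exact even_two.mul_left _), one_mul, h2]
    · rw [h3', h3]; ring

theorem fBas_unbounded (K : Type*) [Field K] [CharZero K] (M : ℕ) :
    ∃ n : ℕ, 1 ≤ n ∧
      M * Module.finrank K (SplittingField (((fBas K).comp)^[n] X)) <
        Module.finrank (RatFunc K) (SplittingField (genericPoly (fBas K) n)) := by
  apply unbounded_of_tower (fBas K) (fBas_monic K) (by rw [fBas_natDegree]; norm_num)
  intro k
  refine ⟨2 * k + 3, by omega, ?_⟩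
  obtain ⟨s, -, h, -⟩ := fBas_tower (K := K) (L := (genericPoly (fBas K) (2 * k + 3)).SplittingField)
    _ rfl k (2 * k + 3) le_rfl (SplittingField.splits _)
  refine ⟨(s.map (fun z => z - 2)).prod ^ 2, ?_⟩
  rw [← h, ← pow_mul]
  congr 1
  ring

end Pool.Agent.ArborealIndex
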