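import Mathlib

/-!
# Definitions for the index of arboreal Galois groups (problem MP_9fb0d9_nt)
-/

open Polynomial

namespace Pool.Agent.ArborealIndex

variable {K : Type*} [Field K]

/-- The `n`-th iterate `f^n = f ∘ ⋯ ∘ f` as a polynomial (`f^0 = x`). -/
noncomputable def iterPoly (f : K[X]) (n : ℕ) : K[X] := (f.comp)^[n] X

/-- The polynomial `f^n(x) - t` over `K(t)`. -/
noncomputable def genericPoly (f : K[X]) (n : ℕ) : (RatFunc K)[X] :=
  map (algebraMap K (RatFunc K)) (iterPoly f n) - C (RatFunc.X : RatFunc K)

/-- `[K_n : K]`, where `K_n` is the splitting field of `f^n(x)` over `K`. -/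
noncomputable def arborealDegree (f : K[X]) (n : ℕ) : ℕ :=
  Module.finrank K (SplittingField (iterPoly f n))

/-- `[L_n : K(t)]`, where `L_n` is the splitting field of `f^n(x) - t` over `K(t)`. -/
noncomputable def monodromyDegree (f : K[X]) (n : ℕ) : ℕ :=
  Module.finrank (RatFunc K) (SplittingField (genericPoly f n))

/-- `G` has finite index in `G'`: the quotients `[L_n : K(t)] / [K_n : K]`, `n ≥ 1`, are
bounded. -/
def FiniteIndex (f : K[X]) : Prop :=
  ∃ M : ℕ, ∀ n : ℕ, 1 ≤ n → monodromyDegree f n ≤ M * arborealDegree f n

/-- `c ∈ K̄` is a critical point of the polynomial `f`. -/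
def IsCritical (f : K[X]) (c : AlgebraicClosure K) : Prop :=
  aeval c (derivative f) = 0

/-- The forward orbit `c, f(c), f(f(c)), …` of a point `c ∈ K̄`. -/
def orbit (f : K[X]) (c : AlgebraicClosure K) : Set (AlgebraicClosure K) :=
  Set.range fun n : ℕ => (fun x : AlgebraicClosure K => aeval x f)^[n] c

/-- `f` is postcritically finite: every critical point of `f` in the algebraic closure of `K`
has a finite forward orbit under `f`. -/
def IsPCF (f : K[X]) : Prop :=
  ∀ c : AlgebraicClosure K, IsCritical f c → (orbit f c).Finite

/-- `0` is wandering for `f`: its forward orbit is infinite (in particular `0` is neither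
periodic nor preperiodic). -/
def ZeroWandering (f : K[X]) : Prop := (orbit f 0).Infinite

/-- `0` is postcritical: it lies on the forward orbit of a critical point of `f`. -/
def ZeroPostcritical (f : K[X]) : Prop :=
  ∃ c : AlgebraicClosure K, IsCritical f c ∧ 0 ∈ orbit f c

end Pool.Agent.ArborealIndex
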