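import Pool.Agent.ArborealIndex.Quartic

open Polynomial

namespace Pool.Agent.ArborealIndex

variable {K : Type*} [Field K]

theorem not_finiteIndex_of_unbounded (f : K[X])
    (h : ∀ M : ℕ, ∃ n : ℕ, 1 ≤ n ∧
      M * Module.finrank K (SplittingField ((f.comp)^[n] X)) <
        Module.finrank (RatFunc K) (SplittingField (genericPoly f n))) : ¬ FiniteIndex f := by
  rintro ⟨M, hM⟩
  obtain ⟨n, hn, hlt⟩ := h M
  have := hM n hn
  unfold monodromyDegree arborealDegree iterPoly at this
  omega

/-- If the orbit of `0` is the image of a strictly increasing integer sequence, it is infinite. -/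
theorem zeroWandering_of_int [CharZero K] (f : K[X]) (g : ℤ → ℤ) (P : ℤ → Prop) (hP0 : P 0)
    (hg : ∀ x : ℤ, P x → P (g x) ∧ x < g x)
    (hfg : ∀ x : ℤ, aeval (x : AlgebraicClosure K) f = ((g x : ℤ) : AlgebraicClosure K)) :
    ZeroWandering f := by
  have hiter : ∀ n : ℕ, (fun x : AlgebraicClosure K => aeval x f)^[n] 0 =
      ((g^[n] 0 : ℤ) : AlgebraicClosure K) := by
    intro n
    induction n with
    | zero => simp
    | succ n ih => rw [Function.iterate_succ_apply', ih, hfg, Function.iterate_succ_apply']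
  have hnn : ∀ n : ℕ, P (g^[n] 0) := by
    intro n
    induction n with
    | zero => exact hP0
    | succ n ih =>
      rw [Function.iterate_succ_apply']
      exact (hg _ ih).1
  have hmono : StrictMono (fun n : ℕ => g^[n] 0) := by
    apply strictMono_nat_of_lt_succ
    intro n
    rw [Function.iterate_succ_apply']
    exact (hg _ (hnn n)).2
  unfold ZeroWandering orbit
  apply Set.infinite_range_of_injective
  intro a b hab
  simp only [hiter] at hab
  exact hmono.injective (Int.cast_injective hab)

theorem fBas_aeval (x : AlgebraicClosure K) : aeval x (fBas K) = (x - 2) ^ 2 + 1 := by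
  rw [aeval_def, fBas_eval₂]

theorem fBas_critical [CharZero K] (c : AlgebraicClosure K) (hc : IsCritical (fBas K) c) :
    c = 2 := by
  unfold IsCritical fBas at hc
  rw [derivative_add, derivative_X_sub_C_pow, derivative_one, add_zero] at hc
  simp at hc
  exact sub_eq_zero.mp hc

theorem fBas_orbit_two (n : ℕ) : (fun x : AlgebraicClosure K => aeval x (fBas K))^[n] 2 = 2 ∨
    (fun x : AlgebraicClosure K => aeval x (fBas K))^[n] 2 = 1 := by
  induction n with
  | zero => left; rfl
  | succ n ih =>
    rw [Function.iterate_succ_apply']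
    rcases ih with ih | ih
    · right; rw [ih, fBas_aeval]; ring
    · left; rw [ih, fBas_aeval]; ring

theorem fBas_isPCF [CharZero K] : IsPCF (fBas K) := by
  intro c hc
  rw [fBas_critical c hc]
  refine Set.Finite.subset (Set.toFinite {(2 : AlgebraicClosure K), 1}) ?_
  rintro _ ⟨n, rfl⟩
  rcases fBas_orbit_two (K := K) n with h | h
  · left; exact h
  · right; exact h

theorem fBas_not_postcritical [CharZero K] : ¬ ZeroPostcritical (fBas K) := by
  rintro ⟨c, hc, n, hn⟩
  rw [fBas_critical c hc] at hn
  simp only at hn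
  rcases fBas_orbit_two (K := K) n with h | h
  · rw [hn] at h
    exact two_ne_zero h.symm
  · rw [hn] at h
    exact one_ne_zero h.symm

theorem fBas_zeroWandering [CharZero K] : ZeroWandering (fBas K) := by
  apply zeroWandering_of_int (fBas K) (fun x => (x - 2) ^ 2 + 1) (fun x => x = 0 ∨ 5 ≤ x)
    (Or.inl rfl)
  · rintro x (rfl | hx)
    · norm_num
    · refine ⟨Or.inr ?_, ?_⟩ <;> nlinarith
  · intro x
    rw [fBas_aeval]
    push_cast
    ring

theorem fQuart_aeval (x : AlgebraicClosure K) :
    aeval x (fQuart K) = (x - 1) ^ 2 * (x - 2) ^ 2 + 1 := by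
  rw [aeval_def, fQuart_eval₂]

theorem fQuart_critical_iff (c : AlgebraicClosure K) :
    IsCritical (fQuart K) c ↔ 2 * (c - 1) * (c - 2) * (2 * c - 3) = 0 := by
  unfold IsCritical fQuart
  rw [derivative_add, derivative_mul, derivative_X_sub_C_pow, derivative_X_sub_C_pow,
    derivative_one, add_zero]
  simp only [map_add, map_mul, map_pow, map_sub, aeval_X, Nat.cast_ofNat, map_ofNat, map_one]
  constructor
  · intro h; linear_combination h
  · intro h; linear_combination h

/-- 2-adic valuations along the orbit of `3/2`, relative to the centre `1`. -/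
theorem val_step (u : ℚ) (hu : padicValRat 2 (u - 1) < 0) :
    padicValRat 2 (((u - 1) ^ 2 * (u - 2) ^ 2 + 1) - 1) = 4 * padicValRat 2 (u - 1) := by
  have : Fact (Nat.Prime 2) := ⟨Nat.prime_two⟩
  have h0 : u - 1 ≠ 0 := by
    intro h; rw [h] at hu; simp at hu
  have h1 : u - 2 ≠ 0 := by
    intro h
    have : u - 1 = 1 := by linear_combination h
    rw [this] at hu; simp at hu
  have h2 : padicValRat 2 (u - 2) = padicValRat 2 (u - 1) := by
    have e : u - 2 = (u - 1) + (-1) := by ring
    rw [e]
    apply padicValRat.add_eq_of_lt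
    · rw [← e]; exact h1
    · exact h0
    · norm_num
    · rw [padicValRat.neg, padicValRat.one]; exact hu
  rw [add_sub_cancel_right, padicValRat.mul (pow_ne_zero _ h0) (pow_ne_zero _ h1),
    padicValRat.pow, padicValRat.pow, h2]
  push_cast
  ring

theorem fQuart_iter_rat (q : ℚ) [CharZero K] (n : ℕ) :
    (fun x : AlgebraicClosure K => aeval x (fQuart K))^[n] (q : AlgebraicClosure K) =
      (((fun u : ℚ => (u - 1) ^ 2 * (u - 2) ^ 2 + 1)^[n] q : ℚ) : AlgebraicClosure K) := by
  induction n with
  | zero => simp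
  | succ n ih =>
    rw [Function.iterate_succ_apply', ih, fQuart_aeval, Function.iterate_succ_apply']
    push_cast
    ring

theorem fQuart_not_isPCF [CharZero K] : ¬ IsPCF (fQuart K) := by
  intro h
  have hcrit : IsCritical (fQuart K) ((3 / 2 : ℚ) : AlgebraicClosure K) := by
    rw [fQuart_critical_iff]
    push_cast
    ring
  have hfin := h _ hcrit
  have hval : ∀ n : ℕ, padicValRat 2
      ((fun u : ℚ => (u - 1) ^ 2 * (u - 2) ^ 2 + 1)^[n] (3 / 2) - 1) = -(4 ^ n : ℤ) := by
    have : Fact (Nat.Prime 2) := ⟨Nat.prime_two⟩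
    intro n
    induction n with
    | zero =>
      simp only [Function.iterate_zero_apply, pow_zero]
      have e : (3 / 2 : ℚ) - 1 = ((2 : ℕ) : ℚ)⁻¹ := by norm_num
      rw [e, padicValRat.inv, padicValRat.self (by norm_num)]
    | succ n ih =>
      rw [Function.iterate_succ_apply', val_step _ (by
        rw [ih]; exact neg_lt_zero.mpr (by positivity)), ih, pow_succ]
      ring
  apply Set.infinite_range_of_injective _ hfin
  intro a b hab
  simp only [fQuart_iter_rat] at hab
  have hab' := Rat.cast_injective hab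
  have h1 := hval a
  rw [hab', hval b] at h1
  have h2 : (4 : ℤ) ^ b = 4 ^ a := neg_injective h1
  exact (pow_right_injective₀ (by norm_num) (by norm_num) h2).symm

theorem fQuart_zeroWandering [CharZero K] : ZeroWandering (fQuart K) := by
  apply zeroWandering_of_int (fQuart K) (fun x => (x - 1) ^ 2 * (x - 2) ^ 2 + 1)
    (fun x => x = 0 ∨ 5 ≤ x) (Or.inl rfl)
  · rintro x (rfl | hx)
    · norm_num
    · have h1 : 9 ≤ (x - 1) ^ 2 := by nlinarith
      have h2 : x ≤ (x - 2) ^ 2 := by nlinarith
      refine ⟨Or.inr ?_, ?_⟩ <;> nlinarith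
  · intro x
    rw [fQuart_aeval]
    push_cast
    ring

theorem fQuart_orbit_rat_pos (q : ℚ) (hq : 0 < q) (n : ℕ) :
    0 < (fun u : ℚ => (u - 1) ^ 2 * (u - 2) ^ 2 + 1)^[n] q := by
  induction n with
  | zero => exact hq
  | succ n ih =>
    rw [Function.iterate_succ_apply']
    positivity

theorem fQuart_not_postcritical [CharZero K] : ¬ ZeroPostcritical (fQuart K) := by
  rintro ⟨c, hc, n, hn⟩
  rw [fQuart_critical_iff] at hc
  simp only at hn
  have h2 : (2 : AlgebraicClosure K) ≠ 0 := two_ne_zero
  have hq : ∃ q : ℚ, 0 < q ∧ c = (q : AlgebraicClosure K) := by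
    rcases mul_eq_zero.mp hc with h | h
    · rcases mul_eq_zero.mp h with h | h
      · rcases mul_eq_zero.mp h with h | h
        · exact absurd h h2
        · exact ⟨1, by norm_num, by push_cast; linear_combination h⟩
      · exact ⟨2, by norm_num, by push_cast; linear_combination h⟩
    · refine ⟨3 / 2, by norm_num, ?_⟩
      push_cast
      field_simp
      linear_combination h
  obtain ⟨q, hq0, rfl⟩ := hq
  rw [fQuart_iter_rat] at hn
  have h0 := fQuart_orbit_rat_pos q hq0 n
  have h1 : (fun u : ℚ => (u - 1) ^ 2 * (u - 2) ^ 2 + 1)^[n] q = 0 := by exact_mod_cast hn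
  rw [h1] at h0
  exact lt_irrefl _ h0

end Pool.Agent.ArborealIndex
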