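import Mathlib

open Polynomial

namespace Pool.Agent.ArborealIndex

/-- An irreducible monic polynomial over `K` stays irreducible over `K(t)`. -/
theorem irreducible_map_ratFunc {K : Type*} [Field K] {g : K[X]} (hm : g.Monic)
    (hg : Irreducible g) :
    Irreducible (g.map (algebraMap K (RatFunc K))) := by
  have h1 : Irreducible (g.map (C : K →+* K[X])) := by
    apply Polynomial.Monic.irreducible_of_irreducible_map (Polynomial.evalRingHom (0 : K)) _
      (hm.map _)
    rw [Polynomial.map_map]
    have : (Polynomial.evalRingHom (0 : K)).comp (C : K →+* K[X]) = RingHom.id K := by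
      ext x; simp
    rw [this, Polynomial.map_id]
    exact hg
  have h2 := (Polynomial.Monic.irreducible_iff_irreducible_map_fraction_map
    (K := RatFunc K) (hm.map (C : K →+* K[X]))).mp h1
  rw [Polynomial.map_map] at h2
  exact h2

/-- `X^N - (t - 1)` is irreducible over `K(t)`. -/
theorem irreducible_kummer (K : Type*) [Field K] (N : ℕ) (hN : 0 < N) :
    Irreducible (X ^ N - C (RatFunc.X - 1 : RatFunc K)) := by
  have hmon : (X ^ N - C (X - 1 : K[X])).Monic := monic_X_pow_sub_C _ hN.ne'
  have h0 : (X - 1 : K[X]) ≠ 0 := by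
    have := Polynomial.X_sub_C_ne_zero (1 : K); simpa using this
  have hprime : (Ideal.span {(X - 1 : K[X])}).IsPrime := by
    rw [Ideal.span_singleton_prime h0]
    have := Polynomial.prime_X_sub_C (1 : K)
    simpa using this
  have h1 : Irreducible (X ^ N - C (X - 1 : K[X])) := by
    apply Polynomial.irreducible_of_eisenstein_criterion hprime
    · rw [hmon.leadingCoeff]
      exact fun h => hprime.ne_top ((Ideal.eq_top_iff_one _).mpr h)
    · intro n hn
      rw [Polynomial.degree_X_pow_sub_C hN] at hn
      have hn' : n < N := by exact_mod_cast hn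
      rw [coeff_sub, coeff_X_pow, if_neg (by omega), zero_sub, coeff_C]
      split_ifs
      · exact neg_mem (Ideal.mem_span_singleton_self _)
      · simp
    · rw [Polynomial.degree_X_pow_sub_C hN]
      exact_mod_cast hN
    · rw [coeff_sub, coeff_X_pow, if_neg (by omega), zero_sub, coeff_C_zero]
      rw [Ideal.span_singleton_pow, Ideal.mem_span_singleton]
      rintro ⟨c, hc⟩
      have hc' : (X - 1 : K[X]) * ((X - 1) * c) = (X - 1) * (-1) := by
        linear_combination -hc
      have hc2 := mul_left_cancel₀ h0 hc'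
      have hc3 := congrArg (Polynomial.eval 1) hc2
      simp at hc3
    · exact hmon.isPrimitive
  have h2 := (Polynomial.Monic.irreducible_iff_irreducible_map_fraction_map
    (K := RatFunc K) hmon).mp h1
  simpa using h2

open IntermediateField in
/-- Lower bound: an extension of `K(t)` containing an `N`-th root of `t - 1` and a root `ζ` of a
monic irreducible polynomial `g` over `K` has degree at least `N * deg g`. -/
theorem lower_bound {K L : Type*} [Field K] [Field L] [Algebra (RatFunc K) L]
    [FiniteDimensional (RatFunc K) L] (N : ℕ) (hN : 0 < N)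
    (g : K[X]) (hgm : g.Monic) (hg : Irreducible g) (s ζ : L)
    (hs : s ^ N = algebraMap (RatFunc K) L (RatFunc.X - 1))
    (hζ : (g.map ((algebraMap (RatFunc K) L).comp (algebraMap K (RatFunc K)))).eval ζ = 0) :
    N * g.natDegree ≤ Module.finrank (RatFunc K) L := by
  let _ : Algebra K L := ((algebraMap (RatFunc K) L).comp (algebraMap K (RatFunc K))).toAlgebra
  have hst : IsScalarTower K (RatFunc K) L := IsScalarTower.of_algebraMap_eq' rfl
  -- degree of s
  have hmin : minpoly (RatFunc K) s = X ^ N - C (RatFunc.X - 1 : RatFunc K) := by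
    symm
    apply minpoly.eq_of_irreducible_of_monic (irreducible_kummer K N hN)
    · simp [hs]
    · exact monic_X_pow_sub_C _ hN.ne'
  have hE : Module.finrank (RatFunc K) (RatFunc K)⟮s⟯ = N := by
    rw [IntermediateField.adjoin.finrank (Algebra.IsIntegral.isIntegral s), hmin,
      natDegree_X_pow_sub_C]
  have hX : algebraMap (RatFunc K) L RatFunc.X = s ^ N + 1 := by rw [hs]; simp
  -- `s` is transcendental over K
  have hts : Transcendental K s := by
    intro hs_alg
    have h1 : IsAlgebraic K (algebraMap (RatFunc K) L RatFunc.X) := by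
      rw [hX]
      exact (hs_alg.pow N).add isAlgebraic_one
    rw [isAlgebraic_algebraMap_iff (algebraMap (RatFunc K) L).injective] at h1
    exact RatFunc.transcendental_X h1
  -- F(s) is isomorphic to K(x)
  have hsub : ((RatFunc K)⟮s⟯).toSubfield = (K⟮s⟯).toSubfield := by
    apply le_antisymm
    · intro x hx
      have hmem : ∀ y : RatFunc K, algebraMap (RatFunc K) L y ∈ K⟮s⟯ := by
        intro y
        have hXmem : (RatFunc.X : RatFunc K) ∈
            (K⟮s⟯).comap (IsScalarTower.toAlgHom K (RatFunc K) L) := by
          change (IsScalarTower.toAlgHom K (RatFunc K) L) RatFunc.X ∈ K⟮s⟯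
          rw [IsScalarTower.coe_toAlgHom', hX]
          exact add_mem (pow_mem (mem_adjoin_simple_self K s) N) (one_mem _)
        have htop : (⊤ : IntermediateField K (RatFunc K)) ≤
            (K⟮s⟯).comap (IsScalarTower.toAlgHom K (RatFunc K) L) := by
          rw [← RatFunc.adjoin_X, adjoin_simple_le_iff]
          exact hXmem
        exact htop (mem_top (x := y))
      have hle : (RatFunc K)⟮s⟯ ≤ ({ (K⟮s⟯).toSubfield with
          algebraMap_mem' := hmem } : IntermediateField (RatFunc K) L) := by
        rw [adjoin_simple_le_iff]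
        exact mem_adjoin_simple_self K s
      exact hle hx
    · intro x hx
      have hle : K⟮s⟯ ≤ ((RatFunc K)⟮s⟯).restrictScalars K := by
        rw [adjoin_simple_le_iff]
        exact mem_adjoin_simple_self (RatFunc K) s
      exact hle hx
  let e1 : RatFunc K ≃ₐ[K] K⟮s⟯ := RatFunc.algEquivOfTranscendental s hts
  let e2 : K⟮s⟯ ≃+* (RatFunc K)⟮s⟯ := RingEquiv.subfieldCongr hsub.symm
  have hcompat : ((e1.toRingEquiv.trans e2 : RatFunc K ≃+* (RatFunc K)⟮s⟯) :
      RatFunc K →+* (RatFunc K)⟮s⟯).comp (algebraMap K (RatFunc K)) =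
      (algebraMap K (RatFunc K)⟮s⟯) := by
    ext x
    change ((e2 (e1 (algebraMap K (RatFunc K) x)) : (RatFunc K)⟮s⟯) : L) = _
    rw [AlgEquiv.commutes]
    rfl
  have hirr : Irreducible (g.map (algebraMap K (RatFunc K)⟮s⟯)) := by
    have h1 := irreducible_map_ratFunc hgm hg
    have h2 := (MulEquiv.irreducible_iff
      (Polynomial.mapEquiv (e1.toRingEquiv.trans e2))).mpr h1
    rw [Polynomial.mapEquiv_apply, Polynomial.map_map, hcompat] at h2
    exact h2
  have hmin2 : minpoly (RatFunc K)⟮s⟯ ζ = g.map (algebraMap K (RatFunc K)⟮s⟯) := by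
    symm
    apply minpoly.eq_of_irreducible_of_monic hirr
    · rw [aeval_def, eval₂_map, eval₂_eq_eval_map]
      exact hζ
    · exact hgm.map _
  have hle : g.natDegree ≤ Module.finrank (RatFunc K)⟮s⟯ L := by
    have h1 := minpoly.natDegree_le (A := (RatFunc K)⟮s⟯) ζ
    rw [hmin2, hgm.natDegree_map] at h1
    exact h1
  calc N * g.natDegree ≤ N * Module.finrank (RatFunc K)⟮s⟯ L := Nat.mul_le_mul_left _ hle
    _ = Module.finrank (RatFunc K) (RatFunc K)⟮s⟯ * Module.finrank (RatFunc K)⟮s⟯ L := by rw [hE]
    _ = Module.finrank (RatFunc K) L := Module.finrank_mul_finrank _ _ _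

end Pool.Agent.ArborealIndex
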