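import Pool.Agent.ArborealIndex.Basilica

open Polynomial IntermediateField

namespace Pool.Agent.ArborealIndex

/-- The polynomial `(x-1)^2 (x-2)^2 + 1`, the conjugate of `x^2 (x-1)^2` by the translation
by `1`. -/
noncomputable def fQuart (K : Type*) [Field K] : K[X] := (X - C 1) ^ 2 * (X - C 2) ^ 2 + 1

theorem fQuart_natDegree_aux (K : Type*) [Field K] :
    ((X - C 1) ^ 2 * (X - C 2) ^ 2 : K[X]).Monic ∧
      ((X - C 1) ^ 2 * (X - C 2) ^ 2 : K[X]).natDegree = 4 := by
  have h1 : ((X - C 1) ^ 2 : K[X]).Monic := (monic_X_sub_C 1).pow 2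
  have h2 : ((X - C 2) ^ 2 : K[X]).Monic := (monic_X_sub_C 2).pow 2
  refine ⟨h1.mul h2, ?_⟩
  rw [h1.natDegree_mul h2, natDegree_pow, natDegree_pow, natDegree_X_sub_C, natDegree_X_sub_C]

theorem fQuart_monic (K : Type*) [Field K] : (fQuart K).Monic := by
  obtain ⟨h1, h2⟩ := fQuart_natDegree_aux K
  apply h1.add_of_left
  rw [degree_one]
  apply Polynomial.natDegree_pos_iff_degree_pos.mp
  rw [h2]; norm_num

theorem fQuart_natDegree (K : Type*) [Field K] : (fQuart K).natDegree = 4 := by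
  obtain ⟨h1, h2⟩ := fQuart_natDegree_aux K
  have : fQuart K = (X - C 1) ^ 2 * (X - C 2) ^ 2 + C 1 := by simp [fQuart]
  rw [this, natDegree_add_C, h2]

theorem fQuart_eval₂ {K L : Type*} [Field K] [Field L] (φ : K →+* L) (x : L) :
    (fQuart K).eval₂ φ x = (x - 1) ^ 2 * (x - 2) ^ 2 + 1 := by
  rw [fQuart, eval₂_add, eval₂_mul, eval₂_pow, eval₂_pow, eval₂_sub, eval₂_sub, eval₂_X, eval₂_C,
    eval₂_C, eval₂_one, map_ofNat, map_one]

theorem fQuart_tower {K L : Type*} [Field K] [Field L] [Algebra (RatFunc K) L]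
    (φ : K →+* L) (hφ : φ = (algebraMap (RatFunc K) L).comp (algebraMap K (RatFunc K))) (k n : ℕ)
    (hn : k ≤ n)
    (hsplit : ((genericPoly (fQuart K) n).map (algebraMap (RatFunc K) L)).Splits) :
    ∃ s : Multiset L, (∀ y ∈ s, (fun x => (fQuart K).eval₂ φ x)^[k] y =
        algebraMap (RatFunc K) L RatFunc.X) ∧
      (s.map (fun z => z - 1)).prod ^ (2 ^ k) = algebraMap (RatFunc K) L (RatFunc.X - 1) := by
  have hstep : ∀ m, m + 1 ≤ n → ∀ y ∈ {y : L | (fun x => (fQuart K).eval₂ φ x)^[m] y =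
      algebraMap (RatFunc K) L RatFunc.X},
      ∃ a ∈ {y : L | (fun x => (fQuart K).eval₂ φ x)^[m + 1] y =
        algebraMap (RatFunc K) L RatFunc.X},
      ∃ b ∈ {y : L | (fun x => (fQuart K).eval₂ φ x)^[m + 1] y =
        algebraMap (RatFunc K) L RatFunc.X},
      ((a - 1) * (b - 1)) ^ 2 = 1 * (y - 1) := by
    intro m hm y hy
    simp only [Set.mem_ofPred_eq] at hy ⊢
    have hd : (fQuart K).natDegree ≠ 0 := by rw [fQuart_natDegree]; norm_num
    obtain ⟨x, hx1, hx2⟩ := exists_preimage (fQuart K) (fQuart_monic K) hd (m := m) (n := n)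
      (by omega) hsplit φ hφ y hy
    have hx1' : (fQuart K).eval₂ φ (3 - x) = y := by
      rw [fQuart_eval₂] at hx1 ⊢
      rw [← hx1]; ring
    have hx2' : (fun x => (fQuart K).eval₂ φ x)^[m + 1] (3 - x) =
        algebraMap (RatFunc K) L RatFunc.X := by
      rw [Function.iterate_succ_apply, hx1', hy]
    refine ⟨x, hx2, 3 - x, hx2', ?_⟩
    rw [fQuart_eval₂] at hx1
    rw [← hx1]
    ring
  induction k with
  | zero =>
    refine ⟨{algebraMap (RatFunc K) L RatFunc.X}, ?_, ?_⟩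
    · intro y hy
      rw [Multiset.mem_singleton] at hy
      subst hy
      rfl
    · simp
  | succ k ih =>
    obtain ⟨s, h1, h2⟩ := ih (by omega)
    obtain ⟨s', h1', h2', -⟩ := tower_step _ _ _ _ (hstep k (by omega)) s h1
    refine ⟨s', h1', ?_⟩
    have e : (s'.map (fun z => z - 1)).prod ^ (2 ^ (k + 1)) =
        ((s'.map (fun z => z - 1)).prod ^ 2) ^ (2 ^ k) := by
      rw [← pow_mul]; congr 1; ring
    rw [e, h2', one_pow, one_mul, h2]

theorem fQuart_unbounded (K : Type*) [Field K] [CharZero K] (M : ℕ) :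
    ∃ n : ℕ, 1 ≤ n ∧
      M * Module.finrank K (SplittingField (((fQuart K).comp)^[n] X)) <
        Module.finrank (RatFunc K) (SplittingField (genericPoly (fQuart K) n)) := by
  apply unbounded_of_tower (fQuart K) (fQuart_monic K) (by rw [fQuart_natDegree]; norm_num)
  intro k
  refine ⟨k + 1, by omega, ?_⟩
  obtain ⟨s, -, h⟩ := fQuart_tower (K := K) (L := (genericPoly (fQuart K) (k + 1)).SplittingField)
    _ rfl (k + 1) (k + 1) le_rfl (SplittingField.splits _)
  exact ⟨_, h⟩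

end Pool.Agent.ArborealIndex
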