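import Pool.Agent.ArborealIndex.PowerMap

open Polynomial IntermediateField

namespace Pool.Agent.ArborealIndex

/-- For every `b` there is an automorphism of `L` over `K(t)` fixing `ζ` and multiplying `v` by
`ζ^(2b)`, where `v^N = t - 1` and `ζ` is a primitive `2N`-th root of unity. -/
theorem exists_aut {K L : Type*} [Field K] [Field L] [Algebra (RatFunc K) L]
    [FiniteDimensional (RatFunc K) L] [IsGalois (RatFunc K) L] (N : ℕ) (hN : 0 < N) (v ζ : L)
    (hv : v ^ N = algebraMap (RatFunc K) L (RatFunc.X - 1)) (hζ : IsPrimitiveRoot ζ (2 * N))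
    (b : ℕ) : ∃ σ : Gal(L/(RatFunc K)), σ ζ = ζ ∧ σ v = ζ ^ (2 * b) * v := by
  let _ : Algebra K L := ((algebraMap (RatFunc K) L).comp (algebraMap K (RatFunc K))).toAlgebra
  have hst : IsScalarTower K (RatFunc K) L := IsScalarTower.of_algebraMap_eq' rfl
  -- the minimal polynomial of ζ over K
  have hint : IsIntegral K ζ := by
    refine ⟨X ^ (2 * N) - C 1, monic_X_pow_sub_C _ (by omega), ?_⟩
    simp [hζ.pow_eq_one]
  have hδ : 0 < (minpoly K ζ).natDegree := minpoly.natDegree_pos hint
  set δ := (minpoly K ζ).natDegree with hδdef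
  have hEle : Module.finrank (RatFunc K) (RatFunc K)⟮ζ⟯ ≤ δ := by
    rw [adjoin.finrank (Algebra.IsIntegral.isIntegral ζ)]
    have hdvd : minpoly (RatFunc K) ζ ∣ (minpoly K ζ).map (algebraMap K (RatFunc K)) :=
      minpoly.dvd_map_of_isScalarTower K (RatFunc K) ζ
    have := natDegree_le_of_dvd hdvd ((minpoly.monic hint).map _).ne_zero
    rwa [(minpoly.monic hint).natDegree_map] at this
  -- the degree of v over E is N
  have hroot : aeval v (X ^ N - C (algebraMap (RatFunc K) (RatFunc K)⟮ζ⟯ (RatFunc.X - 1))) = 0 := by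
    rw [map_sub, map_pow, aeval_X, aeval_C, hv, ← IsScalarTower.algebraMap_apply, sub_self]
  have hle : N ≤ (minpoly (RatFunc K)⟮ζ⟯ v).natDegree := by
    rw [← adjoin.finrank (Algebra.IsIntegral.isIntegral v)]
    have hfd : FiniteDimensional (RatFunc K) (RatFunc K)⟮ζ⟯⟮v⟯ :=
      FiniteDimensional.trans (RatFunc K) (RatFunc K)⟮ζ⟯ (RatFunc K)⟮ζ⟯⟮v⟯
    have h1 := lower_bound (K := K) (L := (RatFunc K)⟮ζ⟯⟮v⟯) N hN (minpoly K ζ)
      (minpoly.monic hint) (minpoly.irreducible hint) (AdjoinSimple.gen (RatFunc K)⟮ζ⟯ v)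
      (algebraMap (RatFunc K)⟮ζ⟯ (RatFunc K)⟮ζ⟯⟮v⟯ (AdjoinSimple.gen (RatFunc K) ζ)) (by
        apply (algebraMap (RatFunc K)⟮ζ⟯⟮v⟯ L).injective
        rw [map_pow, AdjoinSimple.algebraMap_gen, hv]
        rfl) (by
        apply (algebraMap (RatFunc K)⟮ζ⟯⟮v⟯ L).injective
        rw [map_zero, ← eval_map_apply, Polynomial.map_map]
        have h2 := minpoly.aeval K ζ
        rw [aeval_def, eval₂_eq_eval_map] at h2
        exact h2)
    rw [← Module.finrank_mul_finrank (RatFunc K) (RatFunc K)⟮ζ⟯ (RatFunc K)⟮ζ⟯⟮v⟯, ← hδdef] at h1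
    have h3 : N * δ ≤ Module.finrank (RatFunc K)⟮ζ⟯ (RatFunc K)⟮ζ⟯⟮v⟯ * δ := by
      calc N * δ ≤ _ := h1
        _ ≤ δ * Module.finrank (RatFunc K)⟮ζ⟯ (RatFunc K)⟮ζ⟯⟮v⟯ := Nat.mul_le_mul_right _ hEle
        _ = _ := mul_comm _ _
    exact Nat.le_of_mul_le_mul_right h3 hδ
  have hmin : minpoly (RatFunc K)⟮ζ⟯ v =
      X ^ N - C (algebraMap (RatFunc K) (RatFunc K)⟮ζ⟯ (RatFunc.X - 1)) := by
    have hm := monic_X_pow_sub_C (algebraMap (RatFunc K) (RatFunc K)⟮ζ⟯ (RatFunc.X - 1)) hN.ne'
    symm
    apply Polynomial.eq_of_monic_of_dvd_of_natDegree_le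
      (minpoly.monic (Algebra.IsIntegral.isIntegral v)) hm (minpoly.dvd _ _ hroot)
    rw [natDegree_X_pow_sub_C]
    exact hle
  have hroot2 : aeval (ζ ^ (2 * b) * v) (minpoly (RatFunc K)⟮ζ⟯ v) = 0 := by
    rw [hmin, map_sub, map_pow, aeval_X, aeval_C, mul_pow, hv, ← pow_mul,
      ← IsScalarTower.algebraMap_apply, show 2 * b * N = (2 * N) * b by ring, pow_mul,
      hζ.pow_eq_one, one_pow, one_mul, sub_self]
  obtain ⟨σ, hσ⟩ := minpoly.exists_algEquiv_of_root' (K := (RatFunc K)⟮ζ⟯)
    (Algebra.IsAlgebraic.isAlgebraic v) hroot2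
  refine ⟨σ.restrictScalars (RatFunc K), ?_, ?_⟩
  · have := σ.commutes (AdjoinSimple.gen (RatFunc K) ζ)
    rwa [AdjoinSimple.algebraMap_gen] at this
  · exact hσ

open scoped Pointwise in
/-- The index of the specialization at `t = 0` is at least `N` as soon as `L` contains an `N`-th
root of `t - 1` and a primitive `2N`-th root of unity. -/
theorem key {K L : Type*} [Field K] [CharZero K] [Field L] [Algebra (RatFunc K) L]
    [FiniteDimensional (RatFunc K) L] [IsGalois (RatFunc K) L] (N : ℕ) (hN : 0 < N) (v ζ : L)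
    (hv : v ^ N = algebraMap (RatFunc K) L (RatFunc.X - 1)) (hζ : IsPrimitiveRoot ζ (2 * N))
    (q : K[X]) (hqm : q.Monic) (hq1 : 0 < q.natDegree)
    (hsplit : ((q.map (algebraMap K (RatFunc K)) - C RatFunc.X).map
      (algebraMap (RatFunc K) L)).Splits) :
    N * Module.finrank K q.SplittingField ≤ Module.finrank (RatFunc K) L := by
  let _ : Algebra K[X] L :=
    ((algebraMap (RatFunc K) L).comp (algebraMap K[X] (RatFunc K))).toAlgebra
  have hst : IsScalarTower K[X] (RatFunc K) L := IsScalarTower.of_algebraMap_eq' rfl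
  have hchar : CharZero (RatFunc K) :=
    charZero_of_injective_algebraMap (algebraMap K (RatFunc K)).injective
  set B := integralClosure K[X] L with hB
  have hded : IsDedekindDomain B := integralClosure.isDedekindDomain K[X] (RatFunc K) L
  have hfin : Module.Finite K[X] B := IsIntegralClosure.finite K[X] (RatFunc K) L B
  have hfrac : IsFractionRing B L :=
    IsIntegralClosure.isFractionRing_of_finite_extension K[X] (RatFunc K) L B
  let _ : MulSemiringAction Gal(L/(RatFunc K)) B :=
    IsIntegralClosure.MulSemiringAction K[X] (RatFunc K) L B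
  have hdist : SMulDistribClass Gal(L/(RatFunc K)) B L := inferInstance
  have hGal : IsGaloisGroup Gal(L/(RatFunc K)) K[X] B :=
    IsGaloisGroup.of_isFractionRing _ _ _ (RatFunc K) L
  -- the prime `(X)`
  set p : Ideal K[X] := Ideal.span {X} with hp
  have hpmax : p.IsMaximal := by
    have h1 := PrincipalIdealRing.isMaximal_of_irreducible (Polynomial.irreducible_X (R := K))
    exact h1
  have hpprime : p.IsPrime := hpmax.isPrime
  have hinjAL : Function.Injective (algebraMap K[X] L) :=
    (algebraMap (RatFunc K) L).injective.comp (RatFunc.algebraMap_injective K)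
  have hinjAB : Function.Injective (algebraMap K[X] B) := by
    intro x y hxy
    apply hinjAL
    rw [IsScalarTower.algebraMap_apply K[X] B L, hxy, ← IsScalarTower.algebraMap_apply K[X] B L]
  have hfs : FaithfulSMul K[X] B := (faithfulSMul_iff_algebraMap_injective _ _).mpr hinjAB
  have hinjBL : Function.Injective (algebraMap B L) := IsFractionRing.injective B L
  obtain ⟨P, hPmax, hPover⟩ := Ideal.exists_maximal_ideal_liesOver_of_isIntegral (S := B) p
  have hPprime : P.IsPrime := hPmax.isPrime
  -- `v` and `ζ` as elements of `B`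
  have hvint : IsIntegral K[X] v := by
    refine IsIntegral.of_pow hN ?_
    have : v ^ N = algebraMap K[X] L (X - 1) := by
      rw [hv, IsScalarTower.algebraMap_apply K[X] (RatFunc K) L]
      simp
    rw [this]
    exact isIntegral_algebraMap
  have hζint : IsIntegral K[X] ζ := by
    refine IsIntegral.of_pow (n := 2 * N) (by omega) ?_
    rw [hζ.pow_eq_one]
    exact isIntegral_one
  let vB : B := ⟨v, hvint⟩
  let ζB : B := ⟨ζ, hζint⟩
  have hvB : vB ^ N = algebraMap K[X] B (X - 1) := by
    apply hinjBL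
    rw [map_pow, ← IsScalarTower.algebraMap_apply K[X] B L,
      IsScalarTower.algebraMap_apply K[X] (RatFunc K) L]
    change v ^ N = _
    rw [hv]; simp
  have hζB : IsPrimitiveRoot ζB (2 * N) := by
    apply IsPrimitiveRoot.of_map_of_injective (f := algebraMap B L) _ hinjBL
    exact hζ
  have h2N : 0 < 2 * N := by omega
  -- in any residue ring
  have hprimQ : ∀ Q : Ideal B, Q.IsPrime → Q.LiesOver p →
      IsPrimitiveRoot (Ideal.Quotient.mk Q ζB) (2 * N) ∧ (Ideal.Quotient.mk Q vB) ^ N = -1 := by
    intro Q hQ hQo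
    constructor
    · have hne : NeZero ((2 * N : ℕ) : B ⧸ Q) := by
        refine ⟨?_⟩
        intro h0
        have h1 : ((2 * N : ℕ) : B) ∈ Q := by
          rw [← Ideal.Quotient.eq_zero_iff_mem, map_natCast]
          exact h0
        have h2 : IsUnit ((2 * N : ℕ) : B) := by
          have h3 : ((2 * N : ℕ) : B) = algebraMap K[X] B (C ((2 * N : ℕ) : K)) := by
            rw [map_natCast, map_natCast]
          rw [h3]
          apply IsUnit.map
          rw [Polynomial.isUnit_C]
          rw [isUnit_iff_ne_zero]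
          exact_mod_cast h2N.ne'
        exact hQ.ne_top (Ideal.eq_top_of_isUnit_mem _ h1 h2)
      rw [← isRoot_cyclotomic_iff]
      have h4 := (hζB.isRoot_cyclotomic h2N)
      rw [IsRoot.def, ← map_cyclotomic (2 * N) (Ideal.Quotient.mk Q), eval_map,
        eval₂_at_apply, IsRoot.def.mp h4, map_zero]
    · rw [← map_pow, hvB]
      have hXQ : algebraMap K[X] B X ∈ Q := by
        have : X ∈ p := Ideal.mem_span_singleton_self X
        rw [hQo.over] at this
        exact this
      have : algebraMap K[X] B (X - 1) = algebraMap K[X] B X - 1 := by simp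
      rw [this, map_sub, Ideal.Quotient.eq_zero_iff_mem.mpr hXQ, map_one, zero_sub]
  obtain ⟨j, hj⟩ : ∃ j : ℕ, Ideal.Quotient.mk P vB = Ideal.Quotient.mk P ζB ^ j := by
    obtain ⟨h1, h2⟩ := hprimQ P hPprime hPover
    have : NeZero (2 * N) := ⟨by omega⟩
    obtain ⟨i, _, hi⟩ := h1.eq_pow_of_pow_eq_one (ξ := Ideal.Quotient.mk P vB) (by
      rw [mul_comm, pow_mul, h2]; norm_num)
    exact ⟨i, hi.symm⟩
  have hjmem : vB - ζB ^ j ∈ P := by
    rw [← Ideal.Quotient.eq_zero_iff_mem, map_sub, map_pow, hj, sub_self]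
  choose σ hσζ hσv using exists_aut N hN v ζ hv hζ
  -- N different primes
  have hcard : N ≤ (p.primesOver B).ncard := by
    have hfinset : (p.primesOver B).Finite := by
      exact IsDedekindDomain.primesOver_finite p B
    let g : ℕ → Ideal B := fun b => σ b • P
    have hgmem : ∀ b, g b ∈ p.primesOver B := by
      intro b
      exact ⟨inferInstance, inferInstance⟩
    have hrel : ∀ b, Ideal.Quotient.mk (g b) ζB ^ (2 * b) * Ideal.Quotient.mk (g b) vB =
        Ideal.Quotient.mk (g b) ζB ^ j := by
      intro b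
      have h1 : σ b • (vB - ζB ^ j) ∈ g b := Ideal.smul_mem_pointwise_smul _ _ _ hjmem
      have h2 : σ b • (vB - ζB ^ j) = ζB ^ (2 * b) * vB - ζB ^ j := by
        apply hinjBL
        have h3 : algebraMap B L (σ b • (vB - ζB ^ j)) = σ b (algebraMap B L (vB - ζB ^ j)) :=
          algebraMap_galRestrict_apply K[X] (σ b) (vB - ζB ^ j)
        rw [h3]
        simp only [map_sub, map_mul, map_pow]
        change σ b v - σ b ζ ^ j = ζ ^ (2 * b) * v - ζ ^ j
        rw [hσζ, hσv]
      rw [h2, ← Ideal.Quotient.eq_zero_iff_mem, map_sub, map_mul, map_pow, map_pow] at h1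
      exact sub_eq_zero.mp h1
    have hginj : Set.InjOn g (Finset.range N : Set ℕ) := by
      intro b hb c hc hbc
      have hb' : b < N := by simpa using hb
      have hc' : c < N := by simpa using hc
      have h1 := hrel b
      have h2 := hrel c
      rw [← hbc] at h2
      obtain ⟨hQ1, hQ2⟩ := hgmem b
      obtain ⟨h3, h4⟩ := hprimQ (g b) hQ1 hQ2
      have hvne : Ideal.Quotient.mk (g b) vB ≠ 0 := by
        intro h0
        rw [h0, zero_pow hN.ne'] at h4
        exact (neg_ne_zero.mpr one_ne_zero) h4.symm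
      have h5 : Ideal.Quotient.mk (g b) ζB ^ (2 * b) = Ideal.Quotient.mk (g b) ζB ^ (2 * c) :=
        mul_right_cancel₀ hvne (h1.trans h2.symm)
      have h6 := h3.pow_inj (by omega) (by omega) h5
      omega
    calc N = (Finset.range N).card := (Finset.card_range N).symm
      _ = (g '' (Finset.range N : Set ℕ)).ncard := by
        rw [hginj.ncard_image, Set.ncard_coe_finset]
      _ ≤ (p.primesOver B).ncard := by
        apply Set.ncard_le_ncard _ hfinset
        rintro _ ⟨b, _, rfl⟩
        exact hgmem b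
  -- the residue field contains the splitting field of `q`
  let _ : Field (K[X] ⧸ p) := Ideal.Quotient.field p
  let _ : Field (B ⧸ P) := Ideal.Quotient.field P
  let _ : Algebra K (B ⧸ P) := ((algebraMap K[X] (B ⧸ P)).comp C).toAlgebra
  have hst2 : IsScalarTower K (K[X] ⧸ p) (B ⧸ P) := IsScalarTower.of_algebraMap_eq' rfl
  have hfin1 : Module.finrank K (K[X] ⧸ p) = 1 := by
    rw [hp, finrank_quotient_span_eq_natDegree, natDegree_X]
  have hKA : Module.Finite K (K[X] ⧸ p) := Module.finite_of_finrank_pos (by omega)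
  have hAB : Module.Finite (K[X] ⧸ p) (B ⧸ P) := inferInstance
  have hKB : Module.Finite K (B ⧸ P) := Module.Finite.trans (K[X] ⧸ p) (B ⧸ P)
  have hinertia : P.inertiaDeg K[X] = Module.finrank K (B ⧸ P) := by
    rw [Ideal.inertiaDeg_eq_of_isMaximal p P, ← Module.finrank_mul_finrank K (K[X] ⧸ p) (B ⧸ P),
      hfin1, one_mul]
  have hsplitP : (q.map (algebraMap K (B ⧸ P))).Splits := by
    set Q : B[X] := q.map ((algebraMap K[X] B).comp C) - C (algebraMap K[X] B X) with hQ
    have hQm : Q.Monic := by
      rw [hQ]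
      apply (hqm.map _).sub_of_left
      rw [hqm.degree_map]
      refine lt_of_le_of_lt degree_C_le ?_
      exact Polynomial.natDegree_pos_iff_degree_pos.mp hq1
    have hQL : Q.map (algebraMap B L) = ((q.map (algebraMap K (RatFunc K)) - C RatFunc.X).map
      (algebraMap (RatFunc K) L)) := by
      rw [hQ, Polynomial.map_sub, Polynomial.map_sub, Polynomial.map_map, Polynomial.map_map,
        map_C, map_C]
      congr 1
    have hQs : Q.Splits := by
      apply Polynomial.Splits.of_splits_map_of_injective hinjBL (by rw [hQL]; exact hsplit)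
      intro a ha
      have ha1 : IsIntegral B a := by
        refine ⟨Q, hQm, ?_⟩
        rw [← eval_map]
        exact (mem_roots'.mp ha).2
      have ha2 : IsIntegral K[X] a := isIntegral_trans a ha1
      exact ⟨⟨a, ha2⟩, rfl⟩
    have hQP : Q.map (Ideal.Quotient.mk P) = q.map (algebraMap K (B ⧸ P)) := by
      have hX0 : Ideal.Quotient.mk P (algebraMap K[X] B X) = 0 := by
        rw [Ideal.Quotient.eq_zero_iff_mem]
        have : X ∈ p := Ideal.mem_span_singleton_self X
        rw [hPover.over] at this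
        exact this
      rw [hQ, Polynomial.map_sub, Polynomial.map_map, map_C, hX0, C_0, sub_zero]
      rfl
    rw [← hQP]
    exact hQs.map _
  have hKn : Module.finrank K q.SplittingField ≤ Module.finrank K (B ⧸ P) := by
    let φ := IsSplittingField.lift q.SplittingField q hsplitP
    exact LinearMap.finrank_le_finrank_of_injective (f := φ.toLinearMap) φ.toRingHom.injective
  have hcharR : CharZero p.ResidueField :=
    charZero_of_injective_ringHom ((algebraMap K[X] p.ResidueField).comp C).injective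
  have hformula := Ideal.ncard_primesOver_mul_card_inertia_mul_finrank
    (G := Gal(L/(RatFunc K))) p P
  rw [hinertia, IsGalois.card_aut_eq_finrank] at hformula
  have hpos : 0 < Nat.card (P.inertia Gal(L/(RatFunc K))) := Nat.card_pos
  rw [← hformula]
  calc N * Module.finrank K q.SplittingField
      ≤ (p.primesOver B).ncard * Module.finrank K (B ⧸ P) := Nat.mul_le_mul hcard hKn
    _ ≤ (p.primesOver B).ncard * Nat.card (P.inertia Gal(L/(RatFunc K))) *
          Module.finrank K (B ⧸ P) := by
        apply Nat.mul_le_mul_right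
        exact Nat.le_mul_of_pos_right _ hpos

end Pool.Agent.ArborealIndex
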