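import Pool.Agent.ArborealIndex.Specialize
import Pool.Agent.ArborealIndex.Defs

open Polynomial IntermediateField

namespace Pool.Agent.ArborealIndex

/-- If a Galois extension `L` of `K(t)` contains a `2^(k+1)`-st root of `t - 1`, it contains a
primitive `2^(k+1)`-st root of unity. -/
theorem exists_primitiveRoot {K L : Type*} [Field K] [CharZero K] [Field L] [Algebra (RatFunc K) L]
    [FiniteDimensional (RatFunc K) L] [IsGalois (RatFunc K) L] (k : ℕ) (v : L)
    (hv : v ^ (2 ^ (k + 1)) = algebraMap (RatFunc K) L (RatFunc.X - 1)) :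
    ∃ ζ : L, IsPrimitiveRoot ζ (2 * 2 ^ k) := by
  have hchar : CharZero L :=
    charZero_of_injective_ringHom
      ((algebraMap (RatFunc K) L).comp (algebraMap K (RatFunc K))).injective
  have hNpos : 0 < 2 ^ (k + 1) := by positivity
  have hmin : minpoly (RatFunc K) v = X ^ (2 ^ (k + 1)) - C (RatFunc.X - 1 : RatFunc K) := by
    symm
    apply minpoly.eq_of_irreducible_of_monic (irreducible_kummer K _ hNpos)
    · simp [hv]
    · exact monic_X_pow_sub_C _ hNpos.ne'
  have hspl : (X ^ (2 ^ (k + 1)) - C (v ^ (2 ^ (k + 1))) : L[X]).Splits := by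
    have h := Normal.splits (inferInstance : Normal (RatFunc K) L) v
    rw [hmin] at h
    rw [hv]
    simpa using h
  have hXne : (RatFunc.X - 1 : RatFunc K) ≠ 0 := by
    intro h
    have h1 : (RatFunc.X : RatFunc K) = algebraMap K[X] (RatFunc K) 1 := by
      rw [map_one]; linear_combination h
    rw [← RatFunc.algebraMap_X] at h1
    have h2 := RatFunc.algebraMap_injective K h1
    have h3 := congrArg natDegree h2
    simp at h3
  have hv0 : v ≠ 0 := by
    intro h0
    rw [h0, zero_pow hNpos.ne'] at hv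
    exact hXne ((map_eq_zero _).mp hv.symm)
  -- `X^N - 1` splits in the splitting field
  have hsplit : (X ^ (2 ^ (k + 1)) - 1 : L[X]).Splits := by
    have h1 := hspl.comp_of_natDegree_le_one (g := C v * X + C 0) (natDegree_linear_le)
    have h2 : (X ^ (2 ^ (k + 1)) - C (v ^ (2 ^ (k + 1))) : L[X]).comp (C v * X + C 0)
        = C (v ^ (2 ^ (k + 1))) * (X ^ (2 ^ (k + 1)) - 1) := by
      simp only [sub_comp, pow_comp, X_comp, C_comp, C_0, add_zero, mul_pow, C_pow]
      ring
    rw [h2] at h1
    have h3 := h1.C_mul ((v ^ (2 ^ (k + 1)))⁻¹)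
    rwa [← mul_assoc, ← C_mul, inv_mul_cancel₀ (pow_ne_zero _ hv0), C_1, one_mul] at h3
  have hsplit2 : (X ^ (2 ^ k) + 1 : L[X]).Splits := by
    apply hsplit.of_dvd
    · have := (monic_X_pow_sub_C (1 : L) hNpos.ne').ne_zero
      simpa using this
    · refine ⟨X ^ (2 ^ k) - 1, ?_⟩
      rw [pow_succ, pow_mul]; ring
  obtain ⟨ζ, hζ⟩ := hsplit2.exists_eval_eq_zero (by
    have : (X ^ (2 ^ k) + 1 : L[X]) = X ^ (2 ^ k) + C 1 := by simp
    rw [this, degree_X_pow_add_C (by positivity)]
    intro h
    have h' : (2 ^ k : ℕ) = 0 := by exact_mod_cast h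
    exact absurd h' (by positivity))
  simp only [eval_add, eval_pow, eval_X, eval_one] at hζ
  refine ⟨ζ, ?_⟩
  have hprim : IsPrimitiveRoot ζ (2 ^ (k + 1)) := by
    rw [IsPrimitiveRoot.iff_orderOf]
    apply orderOf_eq_prime_pow
    · intro h
      rw [h] at hζ
      norm_num at hζ
    · have : ζ ^ (2 ^ k) = -1 := by linear_combination hζ
      rw [pow_succ, pow_mul, this]; norm_num
  rwa [pow_succ, mul_comm] at hprim

theorem iterate_comp_monic {K : Type*} [Field K] {f : K[X]} (hf : f.Monic)
    (hd : f.natDegree ≠ 0) (n : ℕ) :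
    ((f.comp)^[n] X).Monic ∧ ((f.comp)^[n] X).natDegree = f.natDegree ^ n := by
  induction n with
  | zero => exact ⟨monic_X, by simp⟩
  | succ n ih =>
    rw [Function.iterate_succ_apply']
    refine ⟨hf.comp ih.1 ?_, ?_⟩
    · rw [ih.2]; exact pow_ne_zero _ hd
    · rw [natDegree_comp, ih.2, pow_succ, mul_comm]

/-- The tower criterion: if `L_n` contains a `2^k`-th root of `t - 1` for some `n = n(k) ≥ 1` and
every `k`, then the quotients `[L_n : K(t)] / [K_n : K]` are unbounded. -/
theorem unbounded_of_tower {K : Type*} [Field K] [CharZero K] (f : K[X]) (hf : f.Monic)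
    (hd : f.natDegree ≠ 0)
    (htower : ∀ k : ℕ, ∃ n : ℕ, 1 ≤ n ∧ ∃ v : (genericPoly f n).SplittingField,
      v ^ (2 ^ (k + 1)) = algebraMap (RatFunc K) _ (RatFunc.X - 1)) (M : ℕ) :
    ∃ n : ℕ, 1 ≤ n ∧
      M * Module.finrank K (SplittingField ((f.comp)^[n] X)) <
        Module.finrank (RatFunc K) (SplittingField (genericPoly f n)) := by
  obtain ⟨n, hn, v, hv⟩ := htower M
  refine ⟨n, hn, ?_⟩
  have hchar : CharZero (RatFunc K) :=
    charZero_of_injective_algebraMap (algebraMap K (RatFunc K)).injective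
  have hnormal : Normal (RatFunc K) (genericPoly f n).SplittingField :=
    Normal.of_isSplittingField (genericPoly f n)
  have hgal : IsGalois (RatFunc K) (genericPoly f n).SplittingField := ⟨⟩
  obtain ⟨ζ, hζ⟩ := exists_primitiveRoot M v hv
  obtain ⟨hmon, hdeg⟩ := iterate_comp_monic hf hd n
  have hkey := key (K := K) (L := (genericPoly f n).SplittingField) (2 ^ M) (by positivity)
    (v ^ 2) ζ (by rw [← pow_mul, mul_comm, ← pow_succ, hv]) hζ ((f.comp)^[n] X) hmon
    (by rw [hdeg]; exact Nat.pos_of_ne_zero (pow_ne_zero _ hd))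
    (SplittingField.splits (genericPoly f n))
  have hpos : 0 < Module.finrank K (SplittingField ((f.comp)^[n] X)) := Module.finrank_pos
  calc M * Module.finrank K (SplittingField ((f.comp)^[n] X))
      < 2 ^ M * Module.finrank K (SplittingField ((f.comp)^[n] X)) :=
        Nat.mul_lt_mul_of_pos_right Nat.lt_two_pow_self hpos
    _ ≤ _ := hkey

theorem iterate_eval₂ {K L : Type*} [Field K] [Field L] (φ : K →+* L) (f : K[X]) (m : ℕ) (y : L) :
    ((f.comp)^[m] X).eval₂ φ y = (fun x => f.eval₂ φ x)^[m] y := by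
  induction m with
  | zero => simp
  | succ m ih => rw [Function.iterate_succ_apply', Function.iterate_succ_apply', eval₂_comp, ih]

theorem iterate_comp_add {K : Type*} [Field K] (f : K[X]) (m j : ℕ) :
    (f.comp)^[m + j] X = ((f.comp)^[m] X).comp ((f.comp)^[j] X) := by
  induction m with
  | zero => simp
  | succ m ih =>
    rw [show m + 1 + j = (m + j) + 1 by ring, Function.iterate_succ_apply', ih,
      Function.iterate_succ_apply', comp_assoc]

/-- Preimages exist inside the splitting field: if `f^m(y) = t` with `m < n` and `f^n(x) - t`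
splits in `L`, then there is `z ∈ L` with `f(z) = y`. -/
theorem exists_preimage {K L : Type*} [Field K] [Field L] [Algebra (RatFunc K) L]
    (f : K[X]) (hf : f.Monic) (hd : f.natDegree ≠ 0) {m n : ℕ} (hmn : m < n)
    (hsplit : ((genericPoly f n).map (algebraMap (RatFunc K) L)).Splits)
    (φ : K →+* L) (hφ : φ = (algebraMap (RatFunc K) L).comp (algebraMap K (RatFunc K)))
    (y : L) (hy : (fun x => f.eval₂ φ x)^[m] y = algebraMap (RatFunc K) L RatFunc.X) :
    ∃ z : L, f.eval₂ φ z = y ∧
      (fun x => f.eval₂ φ x)^[m + 1] z = algebraMap (RatFunc K) L RatFunc.X := by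
  obtain ⟨j, rfl⟩ : ∃ j, n = m + (j + 1) := ⟨n - m - 1, by omega⟩
  -- `f^(j+1)(X) - y` divides `f^n(X) - t`
  obtain ⟨hmonj, hdegj⟩ := iterate_comp_monic hf hd (j + 1)
  obtain ⟨hmonn, hdegn⟩ := iterate_comp_monic hf hd (m + (j + 1))
  have hdvd : (((f.comp)^[j + 1] X).map φ - C y) ∣
      (genericPoly f (m + (j + 1))).map (algebraMap (RatFunc K) L) := by
    have h1 := Polynomial.sub_dvd_eval_sub (((f.comp)^[j + 1] X).map φ) (C y)
      (((f.comp)^[m] X).map (C.comp φ))
    rw [eval_map, eval_map] at h1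
    have h2 : ((f.comp)^[m] X).eval₂ (C.comp φ) (((f.comp)^[j + 1] X).map φ) =
        ((f.comp)^[m + (j + 1)] X).map φ := by
      rw [iterate_comp_add f m (j + 1), Polynomial.map_comp, Polynomial.comp, eval₂_map]
    have h3 : ((f.comp)^[m] X).eval₂ (C.comp φ) (C y) = C (algebraMap (RatFunc K) L RatFunc.X) := by
      rw [← hy, ← iterate_eval₂, Polynomial.hom_eval₂]
    rw [h2, h3] at h1
    have h4 : (genericPoly f (m + (j + 1))).map (algebraMap (RatFunc K) L) =
        ((f.comp)^[m + (j + 1)] X).map φ - C (algebraMap (RatFunc K) L RatFunc.X) := by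
      rw [genericPoly, iterPoly, Polynomial.map_sub, Polynomial.map_map, map_C, hφ]
    rw [h4]
    exact h1
  have hne : (genericPoly f (m + (j + 1))).map (algebraMap (RatFunc K) L) ≠ 0 := by
    have : (genericPoly f (m + (j + 1))).Monic := by
      rw [genericPoly, iterPoly]
      apply (hmonn.map _).sub_of_left
      rw [hmonn.degree_map]
      refine lt_of_le_of_lt degree_C_le ?_
      apply Polynomial.natDegree_pos_iff_degree_pos.mp
      rw [hdegn]
      exact Nat.pos_of_ne_zero (pow_ne_zero _ hd)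
    exact (this.map _).ne_zero
  have hspl := hsplit.of_dvd hne hdvd
  obtain ⟨w, hw⟩ := hspl.exists_eval_eq_zero (by
    intro h0
    have h1 : (((f.comp)^[j + 1] X).map φ - C y).natDegree = 0 :=
      natDegree_eq_of_degree_eq_some (n := 0) (by simpa using h0)
    rw [natDegree_sub_C, hmonj.natDegree_map, hdegj] at h1
    exact pow_ne_zero _ hd h1)
  rw [eval_sub, eval_C, eval_map, iterate_eval₂] at hw
  have hw' : (fun x => f.eval₂ φ x)^[j + 1] w = y := sub_eq_zero.mp hw
  refine ⟨(fun x => f.eval₂ φ x)^[j] w, ?_, ?_⟩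
  · rw [Function.iterate_succ_apply'] at hw'
    exact hw'
  · rw [Function.iterate_succ_apply]
    rw [Function.iterate_succ_apply'] at hw'
    rw [hw', hy]

end Pool.Agent.ArborealIndex
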